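import Mathlib

/-!
# Integrality of power-sum ratios for `ℓ`-sequences (full answer)

`u l m` is the `ℓ`-sequence: `u_0 = 0`, `u_1 = 1`, `u_{m+2} = ℓ u_{m+1} - u_m`.
We prove that `P_{n,k}` and `R_{n,k}` are integers for all `ℓ ≥ 2`, `n, k ≥ 1`,
and that `T_{10,5}` is not an integer for `ℓ = 2`.
-/

set_option autoImplicit false

namespace Pool.Agent.Results.MP_0634a4_nt.LSequenceAnswer

/-- The `ℓ`-sequence `u_0 = 0`, `u_1 = 1`, `u_{m+2} = ℓ u_{m+1} - u_m`. -/
def u (l : ℤ) : ℕ → ℤ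
  | 0 => 0
  | 1 => 1
  | (m + 2) => l * u l (m + 1) - u l m

/-- The tail sum `S_k(j,n) = ∑_{i=j}^{n} u_i^{2k-1}`. -/
def S (l : ℤ) (k j n : ℕ) : ℤ := ∑ i ∈ Finset.Icc j n, u l i ^ (2 * k - 1)

/-- `P_{n,k} = ∏_{j=1}^{n} S_k(j,n) / u_j`, a rational number. -/
def P (l : ℤ) (n k : ℕ) : ℚ := ∏ j ∈ Finset.Icc 1 n, ((S l k j n : ℚ) / (u l j : ℚ))

/-- `R_{n,k} = S_k(1,n) / S_1(1,n)`, a rational number. -/
def R (l : ℤ) (n k : ℕ) : ℚ := (S l k 1 n : ℚ) / (S l 1 1 n : ℚ)

/-- `T_{n,k} = (∑_{i=1}^{n} u_i^{3(4k-3)}) / (∑_{i=1}^{n} u_i^3)`, a rational number. -/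
def T (l : ℤ) (n k : ℕ) : ℚ :=
  (∑ i ∈ Finset.Icc 1 n, (u l i : ℚ) ^ (3 * (4 * k - 3))) / (∑ i ∈ Finset.Icc 1 n, (u l i : ℚ) ^ 3)

/-! ### The sequence on all integers -/

/-- extension of `u` to negative indices -/
def uz (l : ℤ) : ℤ → ℤ
  | Int.ofNat n => u l n
  | Int.negSucc n => - u l (n + 1)

lemma uz_nat (l : ℤ) (n : ℕ) : uz l (n : ℤ) = u l n := rfl

lemma u_rec (l : ℤ) (m : ℕ) : u l (m + 2) = l * u l (m + 1) - u l m := rfl

lemma uz_neg (l : ℤ) (n : ℤ) : uz l (-n) = - uz l n := by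
  rcases n with n | n
  · rcases n with _ | n
    · simp [uz, u]
    · rfl
  · show uz l (Int.ofNat (n + 1)) = - - u l (n + 1)
    rw [neg_neg]; rfl

lemma uz_rec (l : ℤ) (n : ℤ) : uz l (n + 2) = l * uz l (n + 1) - uz l n := by
  rcases n with n | n
  · exact u_rec l n
  · rcases n with _ | n
    · simp [uz, u]
    · rcases n with _ | n
      · show uz l 0 = l * uz l (-1) - uz l (-2)
        have h1 : uz l (-1) = -1 := rfl
        have h2 : uz l (-2) = - (l * 1 - 0) := rfl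
        have h0 : uz l 0 = 0 := rfl
        rw [h1, h2, h0]; ring
      · have e1 : (Int.negSucc (n + 1 + 1) + 2 : ℤ) = -((n + 1 : ℕ) : ℤ) := by
          rw [Int.negSucc_eq]; push_cast; ring
        have e2 : (Int.negSucc (n + 1 + 1) + 1 : ℤ) = -((n + 2 : ℕ) : ℤ) := by
          rw [Int.negSucc_eq]; push_cast; ring
        have e3 : (Int.negSucc (n + 1 + 1) : ℤ) = -((n + 3 : ℕ) : ℤ) := by
          rw [Int.negSucc_eq]; push_cast; ring
        rw [e1, e2, e3, uz_neg, uz_neg, uz_neg, uz_nat, uz_nat, uz_nat,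
          show n + 3 = (n + 1) + 2 from rfl, u_rec l (n + 1)]
        ring

lemma uz_pred (l : ℤ) (n : ℤ) : uz l (n - 1) = l * uz l n - uz l (n + 1) := by
  have h := uz_rec l (n - 1)
  rw [show n - 1 + 2 = n + 1 by ring, show n - 1 + 1 = n by ring] at h
  linarith

/-- `u_j` divides `u_{j+s} + u_{j-s}`. -/
lemma dvd_sym (l j : ℤ) (s : ℕ) : uz l j ∣ uz l (j + s) + uz l (j - s) := by
  induction s using Nat.strong_induction_on with
  | _ s ih =>
    rcases s with _ | _ | s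
    · simp [← two_mul]
    · have h := uz_pred l j
      refine ⟨l, ?_⟩
      simp only [zero_add, Nat.cast_one]
      rw [h]
      ring
    · have h1 := ih (s + 1) (by omega)
      have h0 := ih s (by omega)
      have e1 : uz l (j + ((s + 1 + 1 : ℕ) : ℤ)) = l * uz l (j + ((s + 1 : ℕ) : ℤ)) - uz l (j + (s : ℤ)) := by
        have := uz_rec l (j + (s : ℤ))
        rw [show j + (s : ℤ) + 2 = j + ((s + 1 + 1 : ℕ) : ℤ) by push_cast; ring,
          show j + (s : ℤ) + 1 = j + ((s + 1 : ℕ) : ℤ) by push_cast; ring] at this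
        exact this
      have e2 : uz l (j - ((s + 1 + 1 : ℕ) : ℤ)) = l * uz l (j - ((s + 1 : ℕ) : ℤ)) - uz l (j - (s : ℤ)) := by
        have := uz_pred l (j - ((s + 1 : ℕ) : ℤ))
        rw [show j - ((s + 1 : ℕ) : ℤ) - 1 = j - ((s + 1 + 1 : ℕ) : ℤ) by push_cast; ring,
          show j - ((s + 1 : ℕ) : ℤ) + 1 = j - (s : ℤ) by push_cast; ring] at this
        exact this
      rw [e1, e2]
      have : l * uz l (j + ((s + 1 : ℕ) : ℤ)) - uz l (j + (s : ℤ)) +
          (l * uz l (j - ((s + 1 : ℕ) : ℤ)) - uz l (j - (s : ℤ))) =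
          l * (uz l (j + ((s + 1 : ℕ) : ℤ)) + uz l (j - ((s + 1 : ℕ) : ℤ))) -
          (uz l (j + (s : ℤ)) + uz l (j - (s : ℤ))) := by ring
      rw [this]
      exact dvd_sub (Dvd.dvd.mul_left h1 l) h0

/-- `u_m + u_{m+1}` divides `u_{m+1+t} + u_{m-t}`. -/
lemma dvd_sym' (l m : ℤ) (t : ℕ) :
    (uz l m + uz l (m + 1)) ∣ uz l (m + 1 + t) + uz l (m - t) := by
  induction t using Nat.strong_induction_on with
  | _ t ih =>
    rcases t with _ | _ | t
    · simp [add_comm]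
    · have h := uz_pred l m
      have h' := uz_rec l m
      refine ⟨l - 1, ?_⟩
      simp only [zero_add, Nat.cast_one]
      rw [show m + 1 + 1 = m + 2 by ring, h, h']
      ring
    · have h1 := ih (t + 1) (by omega)
      have h0 := ih t (by omega)
      have e1 : uz l (m + 1 + ((t + 1 + 1 : ℕ) : ℤ)) =
          l * uz l (m + 1 + ((t + 1 : ℕ) : ℤ)) - uz l (m + 1 + (t : ℤ)) := by
        have := uz_rec l (m + 1 + (t : ℤ))
        rw [show m + 1 + (t : ℤ) + 2 = m + 1 + ((t + 1 + 1 : ℕ) : ℤ) by push_cast; ring,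
          show m + 1 + (t : ℤ) + 1 = m + 1 + ((t + 1 : ℕ) : ℤ) by push_cast; ring] at this
        exact this
      have e2 : uz l (m - ((t + 1 + 1 : ℕ) : ℤ)) =
          l * uz l (m - ((t + 1 : ℕ) : ℤ)) - uz l (m - (t : ℤ)) := by
        have := uz_pred l (m - ((t + 1 : ℕ) : ℤ))
        rw [show m - ((t + 1 : ℕ) : ℤ) - 1 = m - ((t + 1 + 1 : ℕ) : ℤ) by push_cast; ring,
          show m - ((t + 1 : ℕ) : ℤ) + 1 = m - (t : ℤ) by push_cast; ring] at this
        exact this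
      rw [e1, e2]
      have : l * uz l (m + 1 + ((t + 1 : ℕ) : ℤ)) - uz l (m + 1 + (t : ℤ)) +
          (l * uz l (m - ((t + 1 : ℕ) : ℤ)) - uz l (m - (t : ℤ))) =
          l * (uz l (m + 1 + ((t + 1 : ℕ) : ℤ)) + uz l (m - ((t + 1 : ℕ) : ℤ))) -
          (uz l (m + 1 + (t : ℤ)) + uz l (m - (t : ℤ))) := by ring
      rw [this]
      exact dvd_sub (Dvd.dvd.mul_left h1 l) h0

/-! ### Natural-number versions -/

lemma dvd_sym_nat (l : ℤ) (j a b : ℕ) (hab : a + b = 2 * j) : u l j ∣ u l a + u l b := by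
  rcases le_total a b with h | h
  · obtain ⟨s, rfl⟩ : ∃ s, b = j + s := ⟨b - j, by omega⟩
    have := dvd_sym l j s
    rw [show (j : ℤ) - (s : ℤ) = ((a : ℕ) : ℤ) by omega,
      show (j : ℤ) + (s : ℤ) = ((j + s : ℕ) : ℤ) by push_cast; ring, uz_nat, uz_nat, uz_nat] at this
    rwa [add_comm]
  · obtain ⟨s, rfl⟩ : ∃ s, a = j + s := ⟨a - j, by omega⟩
    have := dvd_sym l j s
    rw [show (j : ℤ) - (s : ℤ) = ((b : ℕ) : ℤ) by omega,
      show (j : ℤ) + (s : ℤ) = ((j + s : ℕ) : ℤ) by push_cast; ring, uz_nat, uz_nat, uz_nat] at this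
    exact this

lemma dvd_period (l : ℤ) (j i : ℕ) : u l j ∣ u l (i + 2 * j) - u l i := by
  have := dvd_sym l j (i + j)
  rw [show (j : ℤ) - ((i + j : ℕ) : ℤ) = -((i : ℕ) : ℤ) by push_cast; ring, uz_neg,
    show (j : ℤ) + ((i + j : ℕ) : ℤ) = ((i + 2 * j : ℕ) : ℤ) by push_cast; ring,
    uz_nat, uz_nat, uz_nat] at this
  rwa [← sub_eq_add_neg] at this

lemma dvd_sym'_nat (l : ℤ) (m a b : ℕ) (hab : a + b = 2 * m + 1) :
    (u l m + u l (m + 1)) ∣ u l a + u l b := by
  rcases le_total a b with h | h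
  · obtain ⟨s, rfl⟩ : ∃ s, b = m + 1 + s := ⟨b - (m + 1), by omega⟩
    have := dvd_sym' l m s
    rw [show (m : ℤ) - (s : ℤ) = ((a : ℕ) : ℤ) by omega,
      show (m : ℤ) + 1 + (s : ℤ) = ((m + 1 + s : ℕ) : ℤ) by push_cast; ring,
      show (m : ℤ) + 1 = ((m + 1 : ℕ) : ℤ) by push_cast; ring, uz_nat, uz_nat, uz_nat, uz_nat] at this
    rwa [add_comm (u l a)]
  · obtain ⟨s, rfl⟩ : ∃ s, a = m + 1 + s := ⟨a - (m + 1), by omega⟩
    have := dvd_sym' l m s
    rw [show (m : ℤ) - (s : ℤ) = ((b : ℕ) : ℤ) by omega,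
      show (m : ℤ) + 1 + (s : ℤ) = ((m + 1 + s : ℕ) : ℤ) by push_cast; ring,
      show (m : ℤ) + 1 = ((m + 1 : ℕ) : ℤ) by push_cast; ring, uz_nat, uz_nat, uz_nat, uz_nat] at this
    exact this

/-- Symmetric pairing: if `d ∣ f a + f b` whenever `a + b = c` and also `d ∣ f a` when `2 a = c`,
then `d` divides the sum of `f` over `[a, b]` with `a + b = c`. -/
lemma dvd_sum_sym (f : ℕ → ℤ) (d : ℤ) (c : ℕ) (h : ∀ a b, a + b = c → d ∣ f a + f b)
    (hm : ∀ a, 2 * a = c → d ∣ f a) :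
    ∀ t a b : ℕ, b + 1 - a = t → a + b = c → d ∣ ∑ i ∈ Finset.Icc a b, f i := by
  intro t
  induction t using Nat.strong_induction_on with
  | _ t ih =>
    intro a b ht hc
    rcases lt_trichotomy a b with hab | hab | hab
    · -- split off the two ends
      have hI : Finset.Icc a b = insert a (insert b (Finset.Icc (a + 1) (b - 1))) := by
        ext x
        simp only [Finset.mem_Icc, Finset.mem_insert]
        omega
      rw [hI, Finset.sum_insert, Finset.sum_insert, ← add_assoc]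
      · refine dvd_add (h a b hc) ?_
        exact ih (b - 1 + 1 - (a + 1)) (by omega) (a + 1) (b - 1) rfl (by omega)
      · simp only [Finset.mem_Icc]; omega
      · simp only [Finset.mem_Icc, Finset.mem_insert]; omega
    · subst hab
      simp only [Finset.Icc_self, Finset.sum_singleton]
      exact hm a (by omega)
    · rw [Finset.Icc_eq_empty (by omega)]
      simp

lemma dvd_S_sym (l : ℤ) (k : ℕ) (hk : 1 ≤ k) (j a b : ℕ) (hab : a + b = 2 * j) :
    u l j ∣ S l k a b := by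
  unfold S
  refine dvd_sum_sym (fun i => u l i ^ (2 * k - 1)) (u l j) (2 * j) ?_ ?_ _ a b rfl hab
  · intro a b hab
    have hodd : Odd (2 * k - 1) := ⟨k - 1, by omega⟩
    exact dvd_trans (dvd_sym_nat l j a b hab) (hodd.add_dvd_pow_add_pow (u l a) (u l b))
  · intro a ha
    have : a = j := by omega
    subst this
    exact dvd_pow_self _ (by omega)

lemma dvd_S_sym' (l : ℤ) (k : ℕ) (hk : 1 ≤ k) (m a b : ℕ) (hab : a + b = 2 * m + 1) :
    (u l m + u l (m + 1)) ∣ S l k a b := by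
  unfold S
  refine dvd_sum_sym (fun i => u l i ^ (2 * k - 1)) _ (2 * m + 1) ?_ ?_ _ a b rfl hab
  · intro a b hab
    have hodd : Odd (2 * k - 1) := ⟨k - 1, by omega⟩
    exact dvd_trans (dvd_sym'_nat l m a b hab) (hodd.add_dvd_pow_add_pow (u l a) (u l b))
  · intro a ha
    omega

/-- Sum over a full period. -/
lemma dvd_S_period (l : ℤ) (k : ℕ) (hk : 1 ≤ k) (j : ℕ) (hj : 1 ≤ j) (a : ℕ) :
    u l j ∣ S l k (a + 1) (a + 2 * j) := by
  induction a with
  | zero =>
    -- `∑_{i=1}^{2j}`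
    have hI : S l k (0 + 1) (0 + 2 * j) = S l k 1 (2 * j - 1) + u l (2 * j) ^ (2 * k - 1) := by
      unfold S
      have : Finset.Icc (0 + 1) (0 + 2 * j) = insert (2 * j) (Finset.Icc 1 (2 * j - 1)) := by
        ext x
        simp only [Finset.mem_Icc, Finset.mem_insert]
        omega
      rw [this, Finset.sum_insert, add_comm]
      simp only [Finset.mem_Icc]; omega
    rw [hI]
    refine dvd_add (dvd_S_sym l k hk j 1 (2 * j - 1) (by omega)) ?_
    have := dvd_sym_nat l j 0 (2 * j) (by omega)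
    have h0 : u l 0 = 0 := rfl
    rw [h0, zero_add] at this
    exact dvd_pow this (by omega)
  | succ a ih =>
    have h1 : S l k (a + 1 + 1) (a + 1 + 2 * j) =
        S l k (a + 1) (a + 2 * j) + (u l (a + 1 + 2 * j) ^ (2 * k - 1) - u l (a + 1) ^ (2 * k - 1)) := by
      have e1 : S l k (a + 1) (a + 1 + 2 * j) =
          u l (a + 1) ^ (2 * k - 1) + S l k (a + 1 + 1) (a + 1 + 2 * j) := by
        unfold S
        have : Finset.Icc (a + 1) (a + 1 + 2 * j) =
            insert (a + 1) (Finset.Icc (a + 1 + 1) (a + 1 + 2 * j)) := by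
          ext x
          simp only [Finset.mem_Icc, Finset.mem_insert]
          omega
        rw [this, Finset.sum_insert]
        simp only [Finset.mem_Icc]; omega
      have e2 : S l k (a + 1) (a + 1 + 2 * j) =
          u l (a + 1 + 2 * j) ^ (2 * k - 1) + S l k (a + 1) (a + 2 * j) := by
        unfold S
        have : Finset.Icc (a + 1) (a + 1 + 2 * j) =
            insert (a + 1 + 2 * j) (Finset.Icc (a + 1) (a + 2 * j)) := by
          ext x
          simp only [Finset.mem_Icc, Finset.mem_insert]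
          omega
        rw [this, Finset.sum_insert]
        simp only [Finset.mem_Icc]; omega
      linarith
    rw [h1]
    refine dvd_add ih ?_
    exact dvd_trans (dvd_period l j (a + 1)) (sub_dvd_pow_sub_pow _ _ _)

/-- The reindexing bijection of `[1, n]`. -/
def phi (n j : ℕ) : ℕ := if 2 * j ≤ n then n + 1 - 2 * j else 2 * j - n

lemma dvd_S_phi (l : ℤ) (k : ℕ) (hk : 1 ≤ k) (n j : ℕ) (hj : 1 ≤ j) (_ : j ≤ n) :
    u l j ∣ S l k (phi n j) n := by
  unfold phi
  split_ifs with h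
  · have := dvd_S_period l k hk j hj (n - 2 * j)
    rwa [show n - 2 * j + 1 = n + 1 - 2 * j by omega, show n - 2 * j + 2 * j = n by omega] at this
  · exact dvd_S_sym l k hk j (2 * j - n) n (by omega)

lemma prod_phi (n : ℕ) (f : ℕ → ℤ) :
    ∏ j ∈ Finset.Icc 1 n, f (phi n j) = ∏ j ∈ Finset.Icc 1 n, f j := by
  refine Finset.prod_nbij' (phi n)
    (fun m => if (n + m) % 2 = 0 then (n + m) / 2 else (n + 1 - m) / 2) ?_ ?_ ?_ ?_ ?_
  · intro j hj
    simp only [Finset.mem_Icc] at hj ⊢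
    unfold phi
    split_ifs <;> omega
  · intro m hm
    simp only [Finset.mem_Icc] at hm ⊢
    split_ifs <;> omega
  · intro j hj
    simp only [Finset.mem_Icc] at hj
    unfold phi
    split_ifs <;> omega
  · intro m hm
    simp only [Finset.mem_Icc] at hm
    unfold phi
    split_ifs <;> omega
  · intro j _
    rfl

lemma prod_dvd (l : ℤ) (n k : ℕ) (hk : 1 ≤ k) :
    ∏ j ∈ Finset.Icc 1 n, u l j ∣ ∏ j ∈ Finset.Icc 1 n, S l k j n := by
  rw [← prod_phi n (fun j => S l k j n)]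
  refine Finset.prod_dvd_prod_of_dvd _ _ ?_
  intro j hj
  simp only [Finset.mem_Icc] at hj
  exact dvd_S_phi l k hk n j hj.1 hj.2

/-! ### Positivity -/

lemma u_mono (l : ℤ) (hl : 2 ≤ l) (m : ℕ) : 0 ≤ u l m ∧ u l m + 1 ≤ u l (m + 1) := by
  induction m with
  | zero => exact ⟨le_refl _, le_refl _⟩
  | succ m ih =>
    refine ⟨by linarith [ih.1, ih.2], ?_⟩
    rw [u_rec]
    nlinarith [ih.1, ih.2]

lemma u_pos (l : ℤ) (hl : 2 ≤ l) (m : ℕ) (hm : 1 ≤ m) : 0 < u l m := by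
  obtain ⟨m, rfl⟩ : ∃ m', m = m' + 1 := ⟨m - 1, by omega⟩
  have := u_mono l hl m
  linarith [this.1, this.2]

/-! ### The product formula for `S_1(1,n)` -/

lemma S_one_succ (l : ℤ) (n : ℕ) : S l 1 1 (n + 1) = S l 1 1 n + u l (n + 1) := by
  unfold S
  rw [Finset.sum_Icc_succ_top (by omega)]
  simp

/-- `u_{m+1}^2 - ℓ u_m u_{m+1} + u_m^2 = 1`. -/
lemma u_norm (l : ℤ) (m : ℕ) : u l (m + 1) ^ 2 - l * u l m * u l (m + 1) + u l m ^ 2 = 1 := by
  induction m with
  | zero => simp [u]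
  | succ m ih =>
    rw [u_rec]
    linear_combination ih

lemma u_add (l : ℤ) (m n : ℕ) :
    u l (m + n + 1) = u l (m + 1) * u l (n + 1) - u l m * u l n := by
  induction n using Nat.strong_induction_on with
  | _ n ih =>
    rcases n with _ | _ | n
    · simp [u]
    · simp only [zero_add]
      rw [u_rec l m]
      have : u l (1 + 1) = l := by simp [u]
      rw [this]
      simp [u]
      ring
    · have h1 := ih (n + 1) (by omega)
      have h0 := ih n (by omega)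
      rw [show m + (n + 1 + 1) + 1 = (m + n + 1) + 2 by ring, u_rec,
        show m + n + 1 + 1 = m + (n + 1) + 1 by ring, h1, h0,
        show n + 1 + 1 + 1 = (n + 1) + 2 by ring, u_rec l (n + 1), u_rec l n]
      ring

lemma S_one_even (l : ℤ) (m : ℕ) :
    S l 1 1 (2 * m) = u l m * (u l m + u l (m + 1)) ∧
      S l 1 1 (2 * m + 1) = u l (m + 1) * (u l m + u l (m + 1)) := by
  induction m with
  | zero =>
    simp [S, u]
  | succ m ih =>
    have e1 : S l 1 1 (2 * (m + 1)) = u l (m + 1) * (u l (m + 1) + u l (m + 1 + 1)) := by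
      rw [show 2 * (m + 1) = (2 * m + 1) + 1 by ring, S_one_succ, ih.2]
      have h := u_add l m (m + 1)
      rw [show m + (m + 1) + 1 = 2 * m + 1 + 1 by ring] at h
      rw [h]
      ring
    refine ⟨e1, ?_⟩
    rw [S_one_succ, e1]
    have h := u_add l (m + 1) (m + 1)
    rw [show m + 1 + (m + 1) + 1 = 2 * (m + 1) + 1 by ring] at h
    rw [h]
    ring

lemma coprime_aux (l : ℤ) (m : ℕ) : IsCoprime (u l m) (u l m + u l (m + 1)) := by
  have h := u_norm l m
  -- `u_{m+1}^2 - l u_m u_{m+1} + u_m^2 = 1`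
  refine ⟨u l m - l * u l (m + 1) - u l (m + 1), u l (m + 1), ?_⟩
  linear_combination h

lemma coprime_aux' (l : ℤ) (m : ℕ) : IsCoprime (u l (m + 1)) (u l m + u l (m + 1)) := by
  have h := u_norm l m
  refine ⟨u l (m + 1) - l * u l m - u l m, u l m, ?_⟩
  linear_combination h

lemma S_one_dvd (l : ℤ) (n k : ℕ) (hk : 1 ≤ k) : S l 1 1 n ∣ S l k 1 n := by
  rcases Nat.even_or_odd' n with ⟨m, rfl | rfl⟩
  · rw [(S_one_even l m).1]
    refine (coprime_aux l m).mul_dvd ?_ ?_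
    · rcases Nat.eq_zero_or_pos m with rfl | hm
      · simp [S]
      · have := dvd_S_period l k hk m hm 0
        simpa using this
    · exact dvd_S_sym' l k hk m 1 (2 * m) (by ring)
  · rw [(S_one_even l m).2]
    refine (coprime_aux' l m).mul_dvd ?_ ?_
    · exact dvd_S_sym l k hk (m + 1) 1 (2 * m + 1) (by ring)
    · have h := dvd_S_sym' l k hk m 0 (2 * m + 1) (by ring)
      have e : S l k 0 (2 * m + 1) = S l k 1 (2 * m + 1) := by
        unfold S
        have : Finset.Icc 0 (2 * m + 1) = insert 0 (Finset.Icc 1 (2 * m + 1)) := by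
          ext x
          simp only [Finset.mem_Icc, Finset.mem_insert]
          omega
        rw [this, Finset.sum_insert]
        · have h0 : u l 0 = 0 := rfl
          rw [h0, zero_pow (by omega), zero_add]
        · simp
      rwa [e] at h

lemma S_one_pos (l : ℤ) (hl : 2 ≤ l) (n : ℕ) (hn : 1 ≤ n) : 0 < S l 1 1 n := by
  unfold S
  refine Finset.sum_pos ?_ ⟨1, by simp [hn]⟩
  intro i hi
  simp only [Finset.mem_Icc] at hi
  have := u_pos l hl i hi.1
  simpa using this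

/-! ### The main result -/

lemma P_int (l : ℤ) (hl : 2 ≤ l) (n k : ℕ) (hk : 1 ≤ k) : ∃ z : ℤ, P l n k = z := by
  obtain ⟨z, hz⟩ := prod_dvd l n k hk
  refine ⟨z, ?_⟩
  unfold P
  rw [Finset.prod_div_distrib]
  have hne : (∏ j ∈ Finset.Icc 1 n, (u l j : ℚ)) ≠ 0 := by
    rw [Finset.prod_ne_zero_iff]
    intro j hj
    simp only [Finset.mem_Icc] at hj
    have := u_pos l hl j hj.1
    exact_mod_cast this.ne'
  rw [div_eq_iff hne]
  have : ((∏ j ∈ Finset.Icc 1 n, S l k j n : ℤ) : ℚ) = (((∏ j ∈ Finset.Icc 1 n, u l j) * z : ℤ) : ℚ) := by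
    rw [hz]
  push_cast at this
  rw [this]
  ring

lemma R_int (l : ℤ) (hl : 2 ≤ l) (n k : ℕ) (hn : 1 ≤ n) (hk : 1 ≤ k) : ∃ z : ℤ, R l n k = z := by
  obtain ⟨z, hz⟩ := S_one_dvd l n k hk
  refine ⟨z, ?_⟩
  unfold R
  have hpos := S_one_pos l hl n hn
  have hne : (S l 1 1 n : ℚ) ≠ 0 := by exact_mod_cast hpos.ne'
  rw [div_eq_iff hne, hz]
  push_cast
  ring

lemma u_two (m : ℕ) : u 2 m = m := by
  induction m using Nat.strong_induction_on with
  | _ m ih =>
    rcases m with _ | _ | m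
    · rfl
    · rfl
    · rw [u_rec, ih (m + 1) (by omega), ih m (by omega)]
      push_cast
      ring

lemma T_ten_five : ¬ ∃ z : ℤ, T 2 10 5 = z := by
  rintro ⟨z, hz⟩
  unfold T at hz
  simp only [u_two] at hz
  have hden' : (∑ i ∈ Finset.Icc 1 10, ((i : ℕ) : ℤ) ^ 3) = 3025 := by
    decide +kernel
  have hden : (∑ i ∈ Finset.Icc 1 10, (((i : ℕ) : ℤ) : ℚ) ^ 3) = 3025 := by
    exact_mod_cast hden'
  rw [hden, div_eq_iff (by norm_num)] at hz
  have hz' : (∑ i ∈ Finset.Icc 1 10, ((i : ℕ) : ℤ) ^ (3 * (4 * 5 - 3))) = z * 3025 := by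
    exact_mod_cast hz
  have h2 : (∑ i ∈ Finset.Icc 1 10, ((i : ℕ) : ℤ) ^ (3 * (4 * 5 - 3))) % 3025 = 0 := by
    rw [hz']
    exact Int.mul_emod_left z 3025
  revert h2
  decide +kernel

/-- **Full answer to Q1.** Part (a) is true: for every integer `ℓ ≥ 2` and all `n, k ≥ 1` both
`P_{n,k}` and `R_{n,k}` are integers. Part (b) is false: for `ℓ = 2`, `T_{10,5}` is not an
integer. -/
theorem result :
    (∀ (l : ℤ) (n k : ℕ), 2 ≤ l → 1 ≤ n → 1 ≤ k →
      (∃ z : ℤ, P l n k = z) ∧ (∃ z : ℤ, R l n k = z)) ∧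
    ¬ ∃ z : ℤ, T 2 10 5 = z :=
  ⟨fun l n k hl hn hk => ⟨P_int l hl n k hk, R_int l hl n k hn hk⟩, T_ten_five⟩

end Pool.Agent.Results.MP_0634a4_nt.LSequenceAnswer
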